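import Pool.Agent.H149R3.WordLen
import Pool.Agent.H149R3.FreeOne

/-!
Invertible transducers whose group is free nonabelian and transitive on the tree are bireversible
(after identifying states which act in the same way).
-/

set_option autoImplicit false

namespace Pool.Agent.Results.MP_1d7ced_al.FreeTransitiveBireversible

open Pool.Agent.H149R3

/-- An invertible transducer with set of states `Q` over the alphabet `X`: the transition map `δ`
and, for each state `q`, the output permutation `out q` of the alphabet. -/
structure InvTransducer (Q X : Type*) where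
  δ : Q → X → Q
  out : Q → Equiv.Perm X

namespace InvTransducer

variable {Q X : Type*} (A : InvTransducer Q X)

/-- The action of a state on the finite words: `q (x w) = out_q (x) (δ (q, x) (w))`. -/
def act : Q → List X → List X
  | _, [] => []
  | q, x :: w => A.out q x :: act (A.δ q x) w

/-- the action of the inverse of a state -/
def actInv : Q → List X → List X
  | _, [] => []
  | q, y :: w => (A.out q).symm y :: actInv (A.δ q ((A.out q).symm y)) w

lemma actInv_act (q : Q) (w : List X) : A.actInv q (A.act q w) = w := by
  induction w generalizing q with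
  | nil => rfl
  | cons x w ih =>
    simp only [act, actInv, Equiv.symm_apply_apply, ih]

lemma act_actInv (q : Q) (w : List X) : A.act q (A.actInv q w) = w := by
  induction w generalizing q with
  | nil => rfl
  | cons x w ih =>
    simp only [act, actInv, Equiv.apply_symm_apply, ih]

/-- Each state of an invertible transducer acts on the finite words as a bijection. -/
def perm (q : Q) : Equiv.Perm (List X) where
  toFun := A.act q
  invFun := A.actInv q
  left_inv := A.actInv_act q
  right_inv := A.act_actInv q

/-- The group generated by the states. -/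
def group : Subgroup (Equiv.Perm (List X)) := Subgroup.closure (Set.range A.perm)

/-- The transducer is bireversible: for all letters `a` and `b` the maps `q ↦ δ (q, a)` and
`q ↦ δ (q, out_q⁻¹ (b))` are permutations of the states. -/
def Bireversible : Prop :=
  (∀ a : X, Function.Bijective fun q : Q => A.δ q a) ∧
    ∀ b : X, Function.Bijective fun q : Q => A.δ q ((A.out q).symm b)

/-- Two states are equivalent if they act on the words in the same way. -/
def sameAction : Setoid Q := Setoid.ker A.act

lemma out_eq {p q : Q} (h : A.act p = A.act q) : A.out p = A.out q := by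
  ext x
  have := congrFun h [x]
  simpa [act] using this

lemma act_δ_eq {p q : Q} (h : A.act p = A.act q) (x : X) :
    A.act (A.δ p x) = A.act (A.δ q x) := by
  funext w
  have := congrFun h (x :: w)
  simp only [act, List.cons.injEq] at this
  exact this.2

/-- The minimal transducer: states which act in the same way are identified. -/
def minimal : InvTransducer (Quotient A.sameAction) X where
  δ c x := Quotient.map (fun q => A.δ q x) (fun _ _ h => A.act_δ_eq h x) c
  out c := Quotient.lift A.out (fun _ _ h => A.out_eq h) c

lemma perm_eq_iff {p q : Q} : A.perm p = A.perm q ↔ A.act p = A.act q := by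
  constructor
  · intro h
    funext w
    exact congrArg (fun e : Equiv.Perm (List X) => e w) h
  · intro h
    ext1 w
    exact congrFun h w

/-! ### the self-similar structure of the group -/

lemma exists_dec (g : Equiv.Perm (List X)) (hg : g ∈ A.group) :
    g [] = [] ∧ ∃ (σ : Equiv.Perm X) (s : X → A.group), ∀ x w,
      g (x :: w) = σ x :: (s x : Equiv.Perm (List X)) w := by
  induction hg using Subgroup.closure_induction with
  | mem g hg =>
    obtain ⟨q, rfl⟩ := hg
    exact ⟨rfl, A.out q, fun x => ⟨A.perm (A.δ q x), Subgroup.subset_closure ⟨_, rfl⟩⟩,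
      fun x w => rfl⟩
  | one => exact ⟨rfl, 1, fun _ => 1, fun x w => rfl⟩
  | mul g h _ _ hg hh =>
    obtain ⟨h1, σ, s, h2⟩ := hg
    obtain ⟨h3, τ, t, h4⟩ := hh
    refine ⟨by rw [Equiv.Perm.mul_apply, h3, h1], σ * τ, fun x => s (τ x) * t x, fun x w => ?_⟩
    rw [Equiv.Perm.mul_apply, h4, h2]
    rfl
  | inv g _ hg =>
    obtain ⟨h1, σ, s, h2⟩ := hg
    refine ⟨by rw [Equiv.Perm.inv_eq_iff_eq, h1], σ⁻¹, fun x => (s (σ⁻¹ x))⁻¹, fun x w => ?_⟩
    rw [Equiv.Perm.inv_eq_iff_eq, h2]
    have e1 : ∀ (τ : Equiv.Perm X) (y : X), τ (τ⁻¹ y) = y := fun τ y => τ.apply_symm_apply y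
    have e2 : ∀ (τ : Equiv.Perm (List X)) (y : List X), τ (τ⁻¹ y) = y :=
      fun τ y => τ.apply_symm_apply y
    rw [e1, Subgroup.coe_inv, e2]

/-- root permutation -/
noncomputable def root (g : A.group) : Equiv.Perm X := (A.exists_dec g.1 g.2).2.choose

/-- sections -/
noncomputable def sect (g : A.group) : X → A.group :=
  (A.exists_dec g.1 g.2).2.choose_spec.choose

lemma apply_cons (g : A.group) (x : X) (w : List X) :
    (g : Equiv.Perm (List X)) (x :: w) = A.root g x :: (A.sect g x : Equiv.Perm (List X)) w :=
  (A.exists_dec g.1 g.2).2.choose_spec.choose_spec x w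

lemma apply_nil (g : A.group) : (g : Equiv.Perm (List X)) [] = [] := (A.exists_dec g.1 g.2).1

lemma root_eq {g : A.group} {x y : X} {w v : List X}
    (h : (g : Equiv.Perm (List X)) (x :: w) = y :: v) : A.root g x = y := by
  rw [apply_cons, List.cons.injEq] at h
  exact h.1

lemma sect_eq {g : A.group} {x : X} {s : A.group}
    (h : ∀ w, ∃ y, (g : Equiv.Perm (List X)) (x :: w) = y :: (s : Equiv.Perm (List X)) w) :
    A.sect g x = s := by
  apply Subtype.ext
  ext1 w
  obtain ⟨y, hy⟩ := h w
  rw [apply_cons, List.cons.injEq] at hy
  exact hy.2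

/-- the self-similar structure of the group -/
noncomputable def ss : SS A.group X where
  act := permHomOf (fun g x => A.root g x)
    (fun x => A.root_eq (w := []) (v := []) rfl)
    (fun g h x => by
      apply A.root_eq (w := []) (v := (A.sect g (A.root h x) : Equiv.Perm (List X))
        ((A.sect h x : Equiv.Perm (List X)) []))
      rw [Subgroup.coe_mul, Equiv.Perm.mul_apply, apply_cons, apply_cons])
  sec := A.sect
  sec_mul g h x := by
    apply A.sect_eq
    intro w
    refine ⟨A.root g (A.root h x), ?_⟩
    rw [Subgroup.coe_mul, Equiv.Perm.mul_apply, apply_cons, apply_cons]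
    rfl

lemma ss_act (g : A.group) (x : X) : A.ss.act g x = A.root g x := rfl

lemma ss_sec (g : A.group) (x : X) : A.ss.sec g x = A.sect g x := rfl

lemma ss_faithful (g : A.group) (h1 : A.ss.act g = 1) (h2 : ∀ x, A.ss.sec g x = 1) : g = 1 := by
  apply Subtype.ext
  ext1 w
  cases w with
  | nil => rw [apply_nil]; rfl
  | cons x w =>
    rw [apply_cons]
    have h3 : A.root g x = x := by rw [← ss_act, h1]; rfl
    have h4 : A.sect g x = 1 := h2 x
    rw [h3, h4]
    rfl

/-- the states in the group -/
def st (q : Q) : A.group := ⟨A.perm q, Subgroup.subset_closure ⟨q, rfl⟩⟩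

lemma root_st (q : Q) (x : X) : A.root (A.st q) x = A.out q x :=
  A.root_eq (w := []) (v := []) rfl

lemma sect_st (q : Q) (x : X) : A.sect (A.st q) x = A.st (A.δ q x) :=
  A.sect_eq fun _ => ⟨_, rfl⟩

end InvTransducer

/-- transport of a self-similar structure -/
def transport {G H X : Type*} [Group G] [Group H] (M : SS G X) (e : H ≃* G) : SS H X where
  act := M.act.comp e.toMonoidHom
  sec h x := e.symm (M.sec (e h) x)
  sec_mul g h x := by
    rw [map_mul, M.sec_mul, map_mul]
    rfl

/-- a free group on at most one generator is commutative -/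
lemma comm_of_subsingleton {ι : Type*} (h : ∀ i j : ι, i = j) (a b : FreeGroup ι) :
    a * b = b * a := by
  rcases isEmpty_or_nonempty ι with h0 | ⟨⟨i₀⟩⟩
  · have : Subsingleton (FreeGroup ι) := inferInstance
    exact Subsingleton.elim _ _
  · have key : ∀ g : FreeGroup ι, ∃ n : ℤ, g = FreeGroup.of i₀ ^ n := by
      intro g
      induction g using FreeGroup.induction_on with
      | C1 => exact ⟨0, by simp⟩
      | of i => exact ⟨1, by rw [h i i₀, zpow_one]⟩
      | inv_of i _ => exact ⟨-1, by rw [h i i₀, zpow_neg, zpow_one]⟩
      | mul g g' hg hg' =>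
        obtain ⟨n, rfl⟩ := hg
        obtain ⟨m, rfl⟩ := hg'
        exact ⟨n + m, (zpow_add _ _ _).symm⟩
    obtain ⟨n, rfl⟩ := key a
    obtain ⟨m, rfl⟩ := key b
    exact zpow_mul_comm _ _ _

/-- the main step for the group of a transducer -/
theorem eq_one_of_sect {Q X : Type*} [Finite Q] [Finite X] (A : InvTransducer Q X)
    (hfree : IsFreeGroup A.group) (hnc : ∃ g h : A.group, g * h ≠ h * g)
    (htrans : ∀ x y : X, ∃ g ∈ A.group, g [x] = [y]) (f : A.group) (x : X)
    (hf : A.sect f x = 1) : f = 1 := by
  classical
  cases nonempty_fintype Q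
  let e : FreeGroup (IsFreeGroup.Generators A.group) ≃* A.group :=
    (IsFreeGroup.toFreeGroup A.group).symm
  let M := transport A.ss e
  have two : ∃ i j : IsFreeGroup.Generators A.group, i ≠ j := by
    by_contra hcon
    push Not at hcon
    obtain ⟨g, h, hgh⟩ := hnc
    apply hgh
    have := congrArg e (comm_of_subsingleton hcon (e.symm g) (e.symm h))
    simpa using this
  have hM1 : M.Free1 := by
    apply M.free1_of_transitive two
    · intro g h1 h2
      have h3 : e g = 1 := by
        apply A.ss_faithful (e g) h1
        intro x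
        have := h2 x
        exact (MulEquiv.map_eq_one_iff e.symm).mp this
      exact (MulEquiv.map_eq_one_iff e).mp h3
    · intro x y
      obtain ⟨g, hg, hxy⟩ := htrans x y
      refine ⟨e.symm ⟨g, hg⟩, ?_⟩
      show A.root (e (e.symm ⟨g, hg⟩)) x = y
      rw [MulEquiv.apply_symm_apply]
      exact A.root_eq (w := []) (v := []) hxy
  let S : Finset (FreeGroup (IsFreeGroup.Generators A.group)) :=
    Finset.univ.image (fun q => e.symm (A.st q)) ∪ Finset.univ.image (fun q => (e.symm (A.st q))⁻¹)
  have hS1 : ∀ q, e.symm (A.st q) ∈ S := fun q =>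
    Finset.mem_union_left _ (Finset.mem_image_of_mem _ (Finset.mem_univ q))
  have hS2 : ∀ q, (e.symm (A.st q))⁻¹ ∈ S := fun q =>
    Finset.mem_union_right _ (Finset.mem_image_of_mem (fun q => (e.symm (A.st q))⁻¹)
      (Finset.mem_univ q))
  have hinv : ∀ s ∈ S, s⁻¹ ∈ S := by
    intro s hs
    rcases Finset.mem_union.mp hs with h | h
    · obtain ⟨q, _, rfl⟩ := Finset.mem_image.mp h
      exact hS2 q
    · obtain ⟨q, _, rfl⟩ := Finset.mem_image.mp h
      rw [inv_inv]
      exact hS1 q
  have hsec1 : ∀ q x, M.sec (e.symm (A.st q)) x = e.symm (A.st (A.δ q x)) := by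
    intro q x
    show e.symm (A.sect (e (e.symm (A.st q))) x) = _
    rw [MulEquiv.apply_symm_apply, A.sect_st]
  have hsec : ∀ s ∈ S, ∀ x, M.sec s x ∈ S := by
    intro s hs x
    rcases Finset.mem_union.mp hs with h | h
    · obtain ⟨q, _, rfl⟩ := Finset.mem_image.mp h
      rw [hsec1]
      exact hS1 _
    · obtain ⟨q, _, rfl⟩ := Finset.mem_image.mp h
      have h1 := M.sec_inv (e.symm (A.st q)) (M.act (e.symm (A.st q))⁻¹ x)
      rw [M.act_act_inv] at h1
      rw [h1, hsec1]
      exact hS2 _
  have hgen : Subgroup.closure (S : Set (FreeGroup (IsFreeGroup.Generators A.group))) = ⊤ := by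
    rw [eq_top_iff]
    intro g _
    have key : ∀ (k : Equiv.Perm (List X)) (hk : k ∈ A.group), e.symm ⟨k, hk⟩ ∈
        Subgroup.closure (S : Set (FreeGroup (IsFreeGroup.Generators A.group))) := by
      intro k hk
      induction hk using Subgroup.closure_induction with
      | mem k hk =>
        obtain ⟨q, rfl⟩ := hk
        exact Subgroup.subset_closure (hS1 q)
      | one =>
        have : e.symm (⟨1, Subgroup.one_mem _⟩ : A.group) = 1 := map_one e.symm
        rw [this]
        exact Subgroup.one_mem _
      | mul k l hk hl ihk ihl =>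
        have : e.symm (⟨k * l, Subgroup.mul_mem _ hk hl⟩ : A.group) =
            e.symm ⟨k, hk⟩ * e.symm ⟨l, hl⟩ := map_mul e.symm ⟨k, hk⟩ ⟨l, hl⟩
        rw [this]
        exact Subgroup.mul_mem _ ihk ihl
      | inv k hk ihk =>
        have : e.symm (⟨k⁻¹, Subgroup.inv_mem _ hk⟩ : A.group) =
            (e.symm ⟨k, hk⟩)⁻¹ := map_inv e.symm ⟨k, hk⟩
        rw [this]
        exact Subgroup.inv_mem _ ihk
    have := key (e g).1 (e g).2
    rwa [Subtype.coe_eta, MulEquiv.symm_apply_apply] at this
  have hgood : M.Good S := ⟨hM1, hgen, hsec, two⟩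
  have h1 : M.sec (e.symm f) x = 1 := by
    show e.symm (A.sect (e (e.symm f)) x) = 1
    rw [MulEquiv.apply_symm_apply, hf, map_one]
  exact (MulEquiv.map_eq_one_iff e.symm).mp (hgood.eq_one hinv h1)

open InvTransducer in
/-- **Theorem.** Let `A` be an invertible transducer with finitely many states over a finite
alphabet. If the group generated by its states is free and not commutative, and is transitive on
the words of length one (for example because it is transitive on every level of the tree), then
the minimal transducer of `A` is bireversible; in particular `A` itself is bireversible if its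
states act in different ways. -/
theorem result {Q X : Type*} [Finite Q] [Finite X] (A : InvTransducer Q X)
    (hfree : IsFreeGroup A.group) (hnc : ∃ g h : A.group, g * h ≠ h * g)
    (htrans : ∀ x y : X, ∃ g ∈ A.group, g [x] = [y]) :
    A.minimal.Bireversible ∧ (Function.Injective A.act → A.Bireversible) := by
  have key := eq_one_of_sect A hfree hnc htrans
  have h1 : ∀ p q a, A.act (A.δ p a) = A.act (A.δ q a) → A.act p = A.act q := by
    intro p q a h
    have h2 : A.st (A.δ p a) = A.st (A.δ q a) := Subtype.ext (A.perm_eq_iff.mpr h)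
    have h3 : A.st p * (A.st q)⁻¹ = 1 := by
      apply key _ (A.root (A.st q) a)
      have e1 := A.ss.sec_mul (A.st p) (A.st q)⁻¹ (A.ss.act (A.st q) a)
      rw [A.ss.act_inv_act, A.ss.sec_inv] at e1
      have e2 : A.ss.sec (A.st p) a = A.ss.sec (A.st q) a := by
        rw [A.ss_sec, A.ss_sec, A.sect_st, A.sect_st, h2]
      rw [e2, mul_inv_cancel] at e1
      exact e1
    have h4 : A.st p = A.st q := mul_inv_eq_one.mp h3
    exact A.perm_eq_iff.mp (congrArg Subtype.val h4)
  have h2 : ∀ p q a a', A.out p a = A.out q a' → A.act (A.δ p a) = A.act (A.δ q a') →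
      A.act p = A.act q := by
    intro p q a a' hout h
    have h2 : A.st (A.δ p a) = A.st (A.δ q a') := Subtype.ext (A.perm_eq_iff.mpr h)
    have h3 : (A.st p)⁻¹ * A.st q = 1 := by
      apply key _ a'
      have e1 := A.ss.sec_mul (A.st p)⁻¹ (A.st q) a'
      have e3 : A.ss.act (A.st q) a' = A.ss.act (A.st p) a := by
        rw [A.ss_act, A.ss_act, A.root_st, A.root_st, hout]
      rw [e3, A.ss.sec_inv] at e1
      have e2 : A.ss.sec (A.st p) a = A.ss.sec (A.st q) a' := by
        rw [A.ss_sec, A.ss_sec, A.sect_st, A.sect_st, h2]
      rw [e2, inv_mul_cancel] at e1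
      exact e1
    have h4 : A.st p = A.st q := inv_mul_eq_one.mp h3
    exact A.perm_eq_iff.mp (congrArg Subtype.val h4)
  refine ⟨⟨fun a => ?_, fun b => ?_⟩, fun hinj => ⟨fun a => ?_, fun b => ?_⟩⟩
  · apply Finite.injective_iff_bijective.mp
    intro c c' h
    induction c using Quotient.inductionOn with
    | h p =>
      induction c' using Quotient.inductionOn with
      | h q =>
        have h3 : (Quotient.mk A.sameAction (A.δ p a)) = Quotient.mk A.sameAction (A.δ q a) := h
        have h4 : A.act (A.δ p a) = A.act (A.δ q a) := Quotient.exact h3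
        exact Quotient.sound (s := A.sameAction) (h1 p q a h4)
  · apply Finite.injective_iff_bijective.mp
    intro c c' h
    induction c using Quotient.inductionOn with
    | h p =>
      induction c' using Quotient.inductionOn with
      | h q =>
        have h3 : (Quotient.mk A.sameAction (A.δ p ((A.out p).symm b))) =
          Quotient.mk A.sameAction (A.δ q ((A.out q).symm b)) := h
        have h4 : A.act (A.δ p ((A.out p).symm b)) = A.act (A.δ q ((A.out q).symm b)) :=
          Quotient.exact h3
        exact Quotient.sound (s := A.sameAction) (h2 p q _ _ (by simp) h4)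
  · apply Finite.injective_iff_bijective.mp
    intro p q h
    exact hinj (h1 p q a (congrArg A.act h))
  · apply Finite.injective_iff_bijective.mp
    intro p q h
    exact hinj (h2 p q _ _ (by simp) (congrArg A.act h))

end Pool.Agent.Results.MP_1d7ced_al.FreeTransitiveBireversible
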